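import Pool.Agent.P8H72.RE.Stm
import Pool.Agent.P8H7.RE.St
import Pool.Agent.N833.QW.BIM
import Pool.Agent.N163.QW.DAY
import Pool.Agent.N2.QW.Mat
import Pool.Agent.N664.QWP.RT
import Pool.Agent.N859.QW.Conv

/-!
# Project RE: weighted matrix models (MTA)
-/

set_option autoImplicit false

namespace Pool.Agent.P8H7.RE

open Matrix Finset Pool.Agent.H21R2 Pool.Agent.H80R2.HG Pool.Agent.N2.QW
open Pool.Agent.P8H72.RE (S_MTA UA)
open Pool.Agent.N557.QWX (Op)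
open scoped ComplexOrder Matrix.Norms.Frobenius InnerProductSpace

/-- the matrix data -/
structure MD1 {Γ : Type} [Group Γ] (A : Finset Γ) (τ : Γ → ℂ) (M ε : ℝ) {n N : ℕ}
    (B : Γ → Matrix (Fin n) (Fin n) ℂ) (Z : Matrix (Fin n) (Fin N) ℂ) : Prop where
  one : B 1 = 1
  op : ∀ g ∈ A, ∀ X : Matrix (Fin n) (Fin n) ℂ, ‖B g * X‖ ≤ M * ‖X‖
  nz : ‖Z‖ = 1
  inv : ∀ g ∈ A, ∀ V : unitaryGroup (Fin n) ℂ,
    ‖trace (Zᴴ * (V.1 * Z)) - trace ((B g * Z)ᴴ * (V.1 * (B g * Z)))‖ ≤ ε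
  iso : ∀ g ∈ A, ‖(1 - (B g)ᴴ * B g) * Z‖ ^ 2 ≤ ε
  mul : ∀ g ∈ A, ∀ h ∈ A, ‖(B (g * h) - B g * B h) * Z‖ ^ 2 ≤ ε
  tr : ∀ g ∈ A, ‖trace (Zᴴ * (B g * Z)) - τ g‖ ≤ ε

open Classical in
theorem toMD1 {Γ : Type} [Group Γ] (A : Finset Γ) (τ : Γ → ℂ) (M ε : ℝ) (h1A : (1 : Γ) ∈ A)
    (K : Type) [NormedAddCommGroup K] [InnerProductSpace ℂ K] [CompleteSpace K]
    (b : Γ → (K →L[ℂ] K)) (N : ℕ) (ζ : Fin N → K) (hb1 : b 1 = 1) (hbM : ∀ g ∈ A, ‖b g‖ ≤ M)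
    (hz : ∑ k, ‖ζ k‖ ^ 2 = 1)
    (hinv : ∀ g ∈ A, ∀ V : K →L[ℂ] K, ‖V‖ ≤ 1 →
      ‖∑ k, (⟪ζ k, V (ζ k)⟫_ℂ - ⟪b g (ζ k), V (b g (ζ k))⟫_ℂ)‖ ≤ ε)
    (hiso : ∀ g ∈ A, ∑ k, ‖(1 - star (b g) * b g) (ζ k)‖ ^ 2 ≤ ε)
    (hmul : ∀ g ∈ A, ∀ h ∈ A, ∑ k, ‖(b (g * h) - b g * b h) (ζ k)‖ ^ 2 ≤ ε)
    (htr : ∀ g ∈ A, ‖∑ k, ⟪ζ k, (b g - τ g • (1 : K →L[ℂ] K)) (ζ k)⟫_ℂ‖ ≤ ε) :
    ∃ (n N : ℕ) (B : Γ → Matrix (Fin n) (Fin n) ℂ) (Z : Matrix (Fin n) (Fin N) ℂ),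
      MD1 A τ M ε B Z := by
  set s : Set K := ⋃ g ∈ A, Set.range (fun k => b g (ζ k)) with hs
  have hfin : s.Finite := A.finite_toSet.biUnion fun g _ => Set.finite_range _
  set W : Submodule ℂ K := Submodule.span ℂ s with hW
  have : FiniteDimensional ℂ W := FiniteDimensional.span_of_finite ℂ hfin
  set bs := stdOrthonormalBasis ℂ W with hbs
  set e : Fin (Module.finrank ℂ W) → K := fun x => (bs x : K) with he'
  have he : Orthonormal ℂ e := bs.orthonormal.comp_linearIsometry W.subtypeₗᵢ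
  have hsp : ∀ v ∈ W, Sp e v := by
    intro v hv
    have h1 := congrArg (fun x : W => (x : K)) (bs.sum_repr' ⟨v, hv⟩)
    simp only [Submodule.coe_sum, Submodule.coe_smul] at h1
    exact h1.symm
  have hbW : ∀ g ∈ A, ∀ k, b g (ζ k) ∈ W := fun g hg k =>
    Submodule.subset_span (Set.mem_biUnion hg ⟨k, rfl⟩)
  have hζW : ∀ k, ζ k ∈ W := by
    intro k
    have := hbW 1 h1A k
    rwa [hb1] at this
  have hB : ∀ g, mt e (b g) * ZZ e ζ = ZZ e (fun k => b g (ζ k)) := fun g =>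
    mt_mul_ZZ e (b g) ζ fun k => hsp _ (hζW k)
  refine ⟨_, N, fun g => mt e (b g), ZZ e ζ, ?_, ?_, ?_, ?_, ?_, ?_, ?_⟩
  · show mt e (b 1) = 1
    rw [hb1, mt_one e he]
  · intro g hg X
    exact norm_mt_mul e he _ M (hbM g hg) X
  · rw [norm_eq, fro2_ZZ e ζ (fun k => hsp _ (hζW k)), hz, Real.sqrt_one]
  · intro g hg V
    rw [hB, trace_ZZ, trace_ZZ, ← sum_sub_distrib]
    exact hinv g hg _ (norm_Vop_le e he V)
  · intro g hg
    have h1 : (1 - (mt e (b g))ᴴ * mt e (b g)) * ZZ e ζ =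
        ZZ e (fun k => (1 - star (b g) * b g) (ζ k)) := by
      rw [Matrix.sub_mul, Matrix.one_mul, Matrix.mul_assoc, hB, ← mt_star,
        mt_mul_ZZ e _ _ (fun k => hsp _ (hbW g hg k)), ZZ_sub]
      rfl
    rw [norm_sq_eq, h1]
    exact (fro2_ZZ_le e he _).trans (hiso g hg)
  · intro g hg h hh
    have h1 : (mt e (b (g * h)) - mt e (b g) * mt e (b h)) * ZZ e ζ =
        ZZ e (fun k => (b (g * h) - b g * b h) (ζ k)) := by
      rw [Matrix.sub_mul, Matrix.mul_assoc, hB, hB,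
        mt_mul_ZZ e _ _ (fun k => hsp _ (hbW h hh k)), ZZ_sub]
      rfl
    rw [norm_sq_eq, h1]
    exact (fro2_ZZ_le e he _).trans (hmul g hg h hh)
  · intro g hg
    rw [hB, trace_ZZ' e _ _ (fun k => hsp _ (hbW g hg k))]
    have h1 : ∑ k, ⟪ζ k, (b g - τ g • (1 : K →L[ℂ] K)) (ζ k)⟫_ℂ =
        ∑ k, ⟪ζ k, b g (ζ k)⟫_ℂ - τ g := by
      have h2 : ∀ k, ⟪ζ k, (b g - τ g • (1 : K →L[ℂ] K)) (ζ k)⟫_ℂ =
          ⟪ζ k, b g (ζ k)⟫_ℂ - τ g * ((‖ζ k‖ ^ 2 : ℝ) : ℂ) := by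
        intro k
        show ⟪ζ k, b g (ζ k) - τ g • (ζ k)⟫_ℂ = _
        rw [inner_sub_right, inner_smul_right, inner_self_eq_norm_sq_to_K]
        push_cast
        rfl
      rw [Finset.sum_congr rfl fun k _ => h2 k, Finset.sum_sub_distrib, ← Finset.mul_sum,
        ← Complex.ofReal_sum, hz]
      simp
    rw [← h1]
    exact htr g hg

/-- the matrices with the weight -/
theorem mat1 {Γ : Type} [Group Γ] (A : Finset Γ) (τ : Γ → ℂ) (h1A : (1 : Γ) ∈ A) (M : ℝ)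
    (H : ∀ ε : ℝ, 0 < ε → ∃ (n N : ℕ) (B : Γ → Matrix (Fin n) (Fin n) ℂ)
      (Z : Matrix (Fin n) (Fin N) ℂ), MD1 A τ M ε B Z) (ε0 : ℝ) (hε0 : 0 < ε0) :
    ∃ (n : ℕ) (φ : Γ → unitaryGroup (Fin n) ℂ) (T : Matrix (Fin n) (Fin n) ℂ),
      T.PosSemidef ∧ ‖T‖ = 1 ∧
      (∀ g ∈ A, ‖(φ g).1 * T - T * (φ g).1‖ ≤ ε0) ∧
      (∀ g ∈ A, ∀ h ∈ A, g * h ∈ A → ‖((φ (g * h)).1 - (φ g).1 * (φ h).1) * T‖ ≤ ε0) ∧
      ∀ g ∈ A, ‖trace (T * (φ g).1 * T) - τ g‖ ≤ ε0 := by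
  classical
  have hMp : 0 < 6 + |M| := by positivity
  set η : ℝ := min (1 / 4) (ε0 / (6 + |M|)) with hη
  have hη0 : 0 < η := lt_min (by norm_num) (by positivity)
  have hη1 : η ≤ 1 / 4 := min_le_left _ _
  have hη2 : (6 + |M|) * η ≤ ε0 := by
    have : η ≤ ε0 / (6 + |M|) := min_le_right _ _
    rw [le_div_iff₀ hMp] at this
    linarith
  have hp2 : η ^ 2 ≤ η := by nlinarith
  have hp4 : η ^ 4 ≤ η ^ 2 := by
    have : η ^ 4 = η ^ 2 * η ^ 2 := by ring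
    rw [this]
    nlinarith [sq_nonneg η]
  obtain ⟨n, N, B, Z, hD⟩ := H (η ^ 4) (by positivity)
  have hM0 : M ≤ |M| := le_abs_self M
  obtain ⟨T, hTp, hTT⟩ := exists_sqrt (Z * Zᴴ) (posSemidef_self_mul_conjTranspose Z)
  have hT : Tᴴ = T := hTp.1
  have hT1 := norm_T hT hTT hD.nz
  have hsq : ∀ {m : ℕ} (X : Matrix (Fin n) (Fin m) ℂ), ‖X‖ ^ 2 ≤ η ^ 4 → ‖X‖ ≤ η ^ 2 := by
    intro m X hX
    refine le_of_sq_le_sq ?_ (by positivity)
    calc ‖X‖ ^ 2 ≤ η ^ 4 := hX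
      _ = (η ^ 2) ^ 2 := by ring
  have hu : ∀ g, ∃ u : unitaryGroup (Fin n) ℂ,
      (g ∈ A → ‖u.1 * T - B g * T‖ ≤ η ∧ ‖T * u.1 - B g * T‖ ≤ η) := by
    intro g
    by_cases hgA : g ∈ A
    · obtain ⟨u, hu⟩ := exists_u hTp hTT hD.nz (B g) η hη0.le (hsq _ (hD.iso g hgA))
        (fun V => (hD.inv g hgA V).trans hp4)
      exact ⟨u, fun _ => hu⟩
    · exact ⟨1, fun h => absurd h hgA⟩
  choose φ hφ using hu
  have hfin : ∀ x : ℝ, x ≤ (6 + |M|) * η → x ≤ ε0 := fun x hx => hx.trans hη2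
  have hcomm : ∀ a ∈ A, ‖(φ a).1 * T - T * (φ a).1‖ ≤ 2 * η := by
    intro a ha
    have e1 : (φ a).1 * T - T * (φ a).1 = ((φ a).1 * T - B a * T) - (T * (φ a).1 - B a * T) := by
      abel
    rw [e1]
    refine (norm_sub_le _ _).trans ?_
    have := hφ a ha
    linarith [this.1, this.2]
  have hMη : 0 ≤ |M| * η := by positivity
  refine ⟨n, φ, T, hTp, hT1, ?_, ?_, ?_⟩
  · intro a ha
    apply hfin
    refine (hcomm a ha).trans ?_
    nlinarith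
  · intro a ha c hc hac
    apply hfin
    have e1 : ((φ (a * c)).1 - (φ a).1 * (φ c).1) * T =
        ((φ (a * c)).1 * T - B (a * c) * T) + (B (a * c) - B a * B c) * T -
          B a * (T * (φ c).1 - B c * T) - ((φ a).1 * T - B a * T) * (φ c).1 -
          (φ a).1 * ((φ c).1 * T - T * (φ c).1) := by
      noncomm_ring
    have n1 := (hφ _ hac).1
    have n2 : ‖(B (a * c) - B a * B c) * T‖ ≤ η := by
      rw [norm_mul_T hT hTT]
      exact (hsq _ (hD.mul a ha c hc)).trans hp2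
    have n3 : ‖B a * (T * (φ c).1 - B c * T)‖ ≤ |M| * η := by
      refine (hD.op a ha _).trans ?_
      have e2 := norm_nonneg (T * (φ c).1 - B c * T)
      have e3 := (hφ c hc).2
      have e4 := abs_nonneg M
      nlinarith
    have n4 : ‖((φ a).1 * T - B a * T) * (φ c).1‖ ≤ η := by
      rw [norm_mul_unitary]
      exact (hφ a ha).1
    have n5 : ‖(φ a).1 * ((φ c).1 * T - T * (φ c).1)‖ ≤ 2 * η := by
      rw [norm_unitary_mul]
      exact hcomm c hc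
    rw [e1]
    refine (norm_sub_le _ _).trans ?_
    refine (add_le_add_left (norm_sub_le _ _) _).trans ?_
    refine (add_le_add_left (add_le_add_left (norm_sub_le _ _) _) _).trans ?_
    refine (add_le_add_left (add_le_add_left (add_le_add_left (norm_add_le _ _) _) _) _).trans ?_
    nlinarith
  · intro a ha
    apply hfin
    have e1 : trace (T * (φ a).1 * T) - τ a = trace (T * ((φ a).1 * T - B a * T)) +
        (trace (Zᴴ * (B a * Z)) - τ a) := by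
      rw [← trace_TT hTT, Matrix.mul_sub, trace_sub]
      have : trace (T * (B a * T)) = trace (T * T * B a) := by
        rw [← Matrix.mul_assoc, Matrix.trace_mul_comm, Matrix.mul_assoc]
      rw [this, Matrix.mul_assoc]
      ring
    rw [e1]
    refine (norm_add_le _ _).trans ?_
    have h1 := norm_trace_mul_le T ((φ a).1 * T - B a * T)
    rw [hT1, one_mul] at h1
    have h2 := (hφ a ha).1
    have h3 := (hD.tr a ha).trans (hp4.trans hp2)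
    linarith

/-- MTA -/
theorem t_MTA : S_MTA := by
  classical
  intro H _ _ _ A ξ hA hQ F ε hε
  have hT' : Pool.Agent.N557.QW.IsTracial A ξ := by
    refine ⟨hA.unit, fun x hx y hy => hA.tracial x hx y hy, fun x hx hx0 => hA.faithful x hx ?_⟩
    show ⟪ξ, (star x * x) ξ⟫_ℂ = 0
    have : (star x * x) ξ = star x (x ξ) := rfl
    rw [this, hx0, map_zero, inner_zero_right]
  let u : UA A →* unitary (H →L[ℂ] H) := (UA A).subtype
  have huA : ∀ g : UA A, (u g : H →L[ℂ] H) ∈ A := fun g => g.2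
  have hr : ∀ g : UA A, ∃ r : H →L[ℂ] H, (∀ x ∈ A, x * r = r * x) ∧ r ξ = (u g : H →L[ℂ] H) ξ ∧
      (star r) ξ = (star (u g : H →L[ℂ] H)) ξ := fun g =>
    Pool.Agent.N664.QWP.t_rt H A ξ hT' (u g : H →L[ℂ] H) (huA g) (Unitary.mem_iff.1 (u g).2).1
      (Unitary.mem_iff.1 (u g).2).2
  choose r hr1 hr2 hr3 using hr
  have hD : Dt1 A u r ξ := ⟨huA, hr1, hA.unit, hr2, hr3⟩
  obtain ⟨K, _, _, _, b, φ, hb1, hφ1, hher, hpos, hinv, hsq, hmul, htr⟩ :=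
    state1 (fun _ _ _ _ => Pool.Agent.N833.QW.t_bim) H A (UA A) u r ξ
      ((Pool.Agent.N859.QX.qwep_iff A).1 hQ) hD
  set τ : UA A → ℂ := fun g => ⟪ξ, (u g : H →L[ℂ] H) ξ⟫_ℂ with hτ
  set A' : Finset (UA A) := insert 1 (F ∪ (F ×ˢ F).image (fun p => p.1 * p.2)) with hA'
  have h1A : (1 : UA A) ∈ A' := Finset.mem_insert_self _ _
  have hFA : ∀ g ∈ F, g ∈ A' := fun g hg =>
    Finset.mem_insert_of_mem (Finset.mem_union_left _ hg)
  have hFF : ∀ g ∈ F, ∀ h ∈ F, g * h ∈ A' := fun g hg h hh =>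
    Finset.mem_insert_of_mem (Finset.mem_union_right _
      (Finset.mem_image.2 ⟨(g, h), Finset.mem_product.2 ⟨hg, hh⟩, rfl⟩))
  set M : ℝ := ∑ g ∈ A', ‖b g‖ with hM
  have key : ∀ ε : ℝ, 0 < ε → ∃ (n N : ℕ) (B : UA A → Matrix (Fin n) (Fin n) ℂ)
      (Z : Matrix (Fin n) (Fin N) ℂ), MD1 A' τ M ε B Z := by
    intro ε hε
    set e := A'.equivFin with he
    set P : Finset (UA A × UA A) := A' ×ˢ A' with hP
    set eP := P.equivFin with heP
    let X : Fin A'.card ⊕ (Fin P.card ⊕ Fin A'.card) → (K →L[ℂ] K) := Sum.elim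
      (fun i => star (1 - star (b (e.symm i)) * b (e.symm i)) *
        (1 - star (b (e.symm i)) * b (e.symm i)))
      (Sum.elim (fun i => star (b ((eP.symm i).1.1 * (eP.symm i).1.2) -
          b (eP.symm i).1.1 * b (eP.symm i).1.2) *
        (b ((eP.symm i).1.1 * (eP.symm i).1.2) - b (eP.symm i).1.1 * b (eP.symm i).1.2))
        (fun i => b (e.symm i) - τ (e.symm i) • (1 : K →L[ℂ] K)))
    let f := Fintype.equivFin (Fin A'.card ⊕ (Fin P.card ⊕ Fin A'.card))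
    obtain ⟨N', ζ, h4, h5, h6⟩ := Pool.Agent.N163.QW.t_day K φ A'.card _ (fun i => b (e.symm i))
      (X ∘ f.symm) hφ1 hher hpos (fun i V => hinv _ V) (by
        intro j
        rcases h : f.symm j with i | i | i
        · simp only [Function.comp, h]
          exact hsq _
        · simp only [Function.comp, h]
          exact hmul _ _
        · simp only [Function.comp, h]
          show φ (b (e.symm i) - τ (e.symm i) • (1 : K →L[ℂ] K)) = 0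
          rw [map_sub, map_smul, htr, hφ1]
          simp [hτ]) ε hε
    have h7 : ∀ Y : K →L[ℂ] K, ∀ x : K, ⟪x, (star Y * Y) x⟫_ℂ = ((‖Y x‖ ^ 2 : ℝ) : ℂ) := by
      intro Y x
      rw [mul_apply_eq_comp, ContinuousLinearMap.star_eq_adjoint,
        ContinuousLinearMap.adjoint_inner_right, inner_self_eq_norm_sq_to_K]
      norm_cast
    have h8 : ∀ Y : K →L[ℂ] K, ‖∑ k, ⟪ζ k, (star Y * Y) (ζ k)⟫_ℂ‖ ≤ ε →
        ∑ k, ‖Y (ζ k)‖ ^ 2 ≤ ε := by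
      intro Y hY
      have : ∑ k, ⟪ζ k, (star Y * Y) (ζ k)⟫_ℂ = ((∑ k, ‖Y (ζ k)‖ ^ 2 : ℝ) : ℂ) := by
        rw [Complex.ofReal_sum]
        exact Finset.sum_congr rfl fun k _ => h7 Y (ζ k)
      rw [this, Complex.norm_real, Real.norm_eq_abs,
        abs_of_nonneg (Finset.sum_nonneg fun _ _ => sq_nonneg _)] at hY
      exact hY
    refine toMD1 A' τ M ε h1A K b N' ζ hb1 ?_ h4 ?_ ?_ ?_ ?_
    · intro g hg
      exact Finset.single_le_sum (f := fun g => ‖b g‖) (fun _ _ => norm_nonneg _) hg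
    · intro g hg V hV
      have := h5 (e ⟨g, hg⟩) V hV
      simpa using this
    · intro g hg
      apply h8
      have := h6 (f (Sum.inl (e ⟨g, hg⟩)))
      simpa [X] using this
    · intro g hg h hh
      apply h8
      have := h6 (f (Sum.inr (Sum.inl (eP ⟨(g, h), Finset.mem_product.2 ⟨hg, hh⟩⟩))))
      simpa [X] using this
    · intro g hg
      have := h6 (f (Sum.inr (Sum.inr (e ⟨g, hg⟩))))
      simpa only [X, Function.comp, Equiv.symm_apply_apply, Sum.elim_inr] using this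
  set δ : ℝ := min 1 ε with hδ
  have hδ0 : 0 < δ := lt_min one_pos hε
  have hδε : δ ≤ ε := min_le_right _ _
  have hδ1 : δ ≤ 1 := min_le_left _ _
  have hδ2 : δ ^ 2 ≤ ε := by nlinarith
  obtain ⟨n, ψ, T, hT, hT1, g1, g2, g3⟩ := mat1 A' τ h1A M key δ hδ0
  have hhs : ∀ Y : Matrix (Fin n) (Fin n) ℂ, Pool.Agent.W661.RC.hs Y = ‖Y‖ ^ 2 := by
    intro Y
    rw [norm_sq_eq]
    rfl
  have hhs2 : ∀ Y : Matrix (Fin n) (Fin n) ℂ, ‖Y‖ ≤ δ → Pool.Agent.W661.RC.hs Y ≤ ε := by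
    intro Y hY
    rw [hhs]
    exact (pow_le_pow_left₀ (norm_nonneg _) hY 2).trans hδ2
  refine ⟨n, ψ, T, hT, ?_, ?_, ?_, ?_⟩
  · rw [hhs, hT1, one_pow]
  · intro g hg
    exact hhs2 _ (g1 g (hFA g hg))
  · intro g hg h hh
    exact hhs2 _ (g2 g (hFA g hg) h (hFA h hh) (hFF g hg h hh))
  · intro g hg
    exact (g3 g (hFA g hg)).trans hδε

end Pool.Agent.P8H7.RE
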